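import Pool.Agent.Helper53.UG.Z6a
import Pool.Agent.Helper64.UG.Tail
import Pool.Agent.Helper60.UG.R

/-!
# UG Z6: zeros with `|β - 1/2| ≥ 1/64`

`wt · D ≤ PW (e/2 |RR|⁴ + (k D + D³/k)/(4e))` with `e = T^(-15/16384)/VV`, `k = T^(15/8192)`.
-/

set_option autoImplicit false
open MeasureTheory Set Filter Topology
open Pool.Agent.Helper57.Zeta Pool.Agent.Helper57.LH Pool.Agent.Helper57.ED Pool.Agent.Helper54.LG
open Pool.Agent.Helper69.UG
open Pool.Agent.Helper64.UG (hasSum64 xi_le64)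

namespace Pool.Agent.Helper53.UG

theorem DD_le : ∃ C : ℝ, 0 < C ∧ ∀ X t : ℝ, 1 ≤ X → DD X t ≤ C * (1 + Real.log (4 + |t|)) := by
  obtain ⟨C, hC, hb⟩ := xi_le64
  refine ⟨4 * (C + 1), by linarith, fun X t hX => ?_⟩
  have hs := hasSum64 (B := 2) (by norm_num) t
  have hlog : 0 ≤ Real.log (4 + |t|) := Real.log_nonneg (by linarith [abs_nonneg t])
  unfold DD
  refine tsum_le_of_sum_le' (by positivity) fun Z => ?_
  have h1 : ∀ ρ ∈ Z, mx (ρ : ZS) * (if |(ρ : ℂ).re - 1 / 2| < 1 / 64 then 0 else 1 / (1 + zb X t ρ ^ 2)) ≤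
      4 * (mx ρ * ((2 - (ρ : ℂ).re) / ((2 - (ρ : ℂ).re) ^ 2 + (t - (ρ : ℂ).im) ^ 2))) := by
    intro ρ _
    have hm := mx_nonneg (ρ : ℂ)
    have hβ := zs_re ρ
    set b := 2 - (ρ : ℂ).re with hbd
    have hb1 : 1 ≤ b := by rw [hbd]; linarith
    have hb2 : b ≤ 2 := by rw [hbd]; linarith
    set s := t - (ρ : ℂ).im with hsd
    have h2 : (if |(ρ : ℂ).re - 1 / 2| < 1 / 64 then (0:ℝ) else 1 / (1 + zb X t ρ ^ 2)) ≤ 1 / (1 + s ^ 2) := by
      split_ifs
      · positivity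
      · unfold zb
        rw [← hsd]
        refine one_div_le_one_div_of_le (by positivity) ?_
        have : s ^ 2 ≤ (X * s) ^ 2 := by
          rw [mul_pow]
          have : 1 ≤ X ^ 2 := one_le_pow₀ hX
          nlinarith [sq_nonneg s]
        linarith
    have h3 : 1 / (1 + s ^ 2) ≤ 4 * (b / (b ^ 2 + s ^ 2)) := by
      rw [← mul_div_assoc, div_le_div_iff₀ (by positivity) (by positivity)]
      nlinarith [sq_nonneg s, mul_nonneg (by linarith : 0 ≤ b - 1) (sq_nonneg s)]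
    calc mx ρ * (if |(ρ : ℂ).re - 1 / 2| < 1 / 64 then 0 else 1 / (1 + zb X t ρ ^ 2))
        ≤ mx ρ * (4 * (b / (b ^ 2 + s ^ 2))) := mul_le_mul_of_nonneg_left (h2.trans h3) hm
      _ = _ := by ring
  refine (Finset.sum_le_sum h1).trans ?_
  rw [← Finset.mul_sum]
  have h4 : ∑ ρ ∈ Z, mx (ρ : ZS) * ((2 - (ρ : ℂ).re) / ((2 - (ρ : ℂ).re) ^ 2 + (t - (ρ : ℂ).im) ^ 2)) ≤ _ :=
    sum_le_hasSum Z (fun ρ _ => by
      have hm := mx_nonneg (ρ : ℂ)
      have hβ := zs_re ρ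
      refine mul_nonneg hm (div_nonneg (by linarith) (by positivity))) hs
  have h5 := hb (((2 : ℝ) : ℂ) + (t : ℂ) * Complex.I) (by simp)
  have h6 : Real.log (‖((2 : ℝ) : ℂ) + (t : ℂ) * Complex.I‖ + 2) ≤ Real.log (4 + |t|) := by
    refine Real.log_le_log (by positivity) ?_
    have h7 := Complex.norm_le_abs_re_add_abs_im (((2 : ℝ) : ℂ) + (t : ℂ) * Complex.I)
    have e1 : (((2 : ℝ) : ℂ) + (t : ℂ) * Complex.I).re = 2 := by simp
    have e2 : (((2 : ℝ) : ℂ) + (t : ℂ) * Complex.I).im = t := by simp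
    rw [e1, e2, abs_of_pos (by norm_num : (0:ℝ) < 2)] at h7
    linarith
  nlinarith [mul_nonneg hC hlog]

theorem DD_cube : ∃ C : ℝ, 0 < C ∧ ∀ X t : ℝ, 1 ≤ X → DD X t ^ 3 ≤ C * (4 + |t|) ^ (1 / 4096 : ℝ) := by
  obtain ⟨C, hC, h⟩ := DD_le
  refine ⟨(C * 12289) ^ 3, by positivity, fun X t hX => ?_⟩
  have h4 : 1 ≤ 4 + |t| := by linarith [abs_nonneg t]
  have h1 : Real.log (4 + |t|) ≤ (4 + |t|) ^ (1 / 12288 : ℝ) / (1 / 12288) :=
    Real.log_le_rpow_div (by linarith) (by norm_num)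
  have h2 : 1 ≤ (4 + |t|) ^ (1 / 12288 : ℝ) := Real.one_le_rpow h4 (by norm_num)
  have h3 : 1 + Real.log (4 + |t|) ≤ 12289 * (4 + |t|) ^ (1 / 12288 : ℝ) := by linarith
  have h5 : DD X t ≤ C * 12289 * (4 + |t|) ^ (1 / 12288 : ℝ) := by
    calc DD X t ≤ C * (1 + Real.log (4 + |t|)) := h X t hX
      _ ≤ C * (12289 * (4 + |t|) ^ (1 / 12288 : ℝ)) := by gcongr
      _ = _ := by ring
  calc DD X t ^ 3 ≤ (C * 12289 * (4 + |t|) ^ (1 / 12288 : ℝ)) ^ 3 := pow_le_pow_left₀ (DD_nonneg X t) h5 3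
    _ = (C * 12289) ^ 3 * ((4 + |t|) ^ (1 / 12288 : ℝ)) ^ 3 := by ring
    _ = _ := by
        congr 1
        rw [← Real.rpow_natCast, ← Real.rpow_mul (by linarith)]
        norm_num

theorem mPoly : ∃ C : ℝ, 0 < C ∧ ∀ T : ℝ, 3 ≤ T → ∀ τ u : ℝ, |τ| ≤ 2 * T → |u| ≤ T →
    Integrable (fun t => PW (WW T) (t - τ) * (4 + |t + u|) ^ (1 / 4096 : ℝ)) ∧
    ∫ t, PW (WW T) (t - τ) * (4 + |t + u|) ^ (1 / 4096 : ℝ) ≤ C * T ^ (1 / 4096 : ℝ) := by
  have hpi := Real.pi_pos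
  set g : ℝ → ℝ := fun x => 2 / Real.pi * (1 + ‖x‖) ^ (-(3 / 2) : ℝ) with hg
  have hgi : Integrable g := by
    refine Integrable.const_mul ?_ _
    exact integrable_one_add_norm (by simp; norm_num)
  have hg0 : ∀ x, 0 ≤ g x := fun x => by simp only [hg]; positivity
  refine ⟨7 * (∫ x, g x + 0) + 1, ?_, ?_⟩
  · have : 0 ≤ ∫ x, g x := integral_nonneg hg0
    simp only [add_zero]
    linarith
  intro T hT τ u hτ hu
  have hT0 : 0 < T := by linarith
  have hW0 : 0 < WW T := Real.rpow_pos_of_pos hT0 _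
  have hWT : WW T ≤ T := by
    unfold WW
    calc T ^ (4095 / 4096 : ℝ) ≤ T ^ (1 : ℝ) := Real.rpow_le_rpow_of_exponent_le (by linarith) (by norm_num)
      _ = T := Real.rpow_one T
  set W := WW T with hWd
  have hI : Integrable fun t => g ((t - τ) / W) := (hgi.comp_div hW0.ne').comp_sub_right τ
  have hV : ∫ t, g ((t - τ) / W) = W * ∫ x, g x := by
    rw [integral_sub_right_eq_self (fun t => g (t / W)) τ, Measure.integral_comp_div, abs_of_pos hW0, smul_eq_mul]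
  have hle : ∀ t, PW W (t - τ) * (4 + |t + u|) ^ (1 / 4096 : ℝ) ≤ (7 * T) ^ (1 / 4096 : ℝ) / W * g ((t - τ) / W) := by
    intro t
    set x := (t - τ) / W with hx
    have hx0 := abs_nonneg x
    have e1 : t - τ = W * x := by rw [hx]; field_simp
    have h1 : 4 + |t + u| ≤ 7 * T * (1 + |x|) := by
      have h2 : |t + u| ≤ |t - τ| + |τ| + |u| := by
        calc |t + u| = |(t - τ) + τ + u| := by ring_nf
          _ ≤ |(t - τ) + τ| + |u| := abs_add_le _ _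
          _ ≤ _ := by linarith [abs_add_le (t - τ) τ]
      have h3 : |t - τ| = W * |x| := by rw [e1, abs_mul, abs_of_pos hW0]
      have h4 : W * |x| ≤ T * |x| := by gcongr
      nlinarith
    have h5 : (4 + |t + u|) ^ (1 / 4096 : ℝ) ≤ (7 * T) ^ (1 / 4096 : ℝ) * (1 + |x|) ^ (1 / 2 : ℝ) := by
      calc (4 + |t + u|) ^ (1 / 4096 : ℝ) ≤ (7 * T * (1 + |x|)) ^ (1 / 4096 : ℝ) :=
            Real.rpow_le_rpow (by positivity) h1 (by norm_num)
        _ = (7 * T) ^ (1 / 4096 : ℝ) * (1 + |x|) ^ (1 / 4096 : ℝ) := Real.mul_rpow (by positivity) (by positivity)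
        _ ≤ _ := by
            have : (1 + |x|) ^ (1 / 4096 : ℝ) ≤ (1 + |x|) ^ (1 / 2 : ℝ) :=
              Real.rpow_le_rpow_of_exponent_le (by linarith) (by norm_num)
            gcongr
    have h6 : PW W (t - τ) ≤ 1 / W * (2 / Real.pi) * (1 + |x|) ^ (-2 : ℝ) := by
      rw [e1, Real.rpow_neg (by positivity), show (2:ℝ) = ((2:ℕ):ℝ) by norm_num, Real.rpow_natCast]
      unfold PW
      rw [show 1 / W * (((2:ℕ):ℝ) / Real.pi) * ((1 + |x|) ^ 2)⁻¹ = 2 / (W * Real.pi * (1 + |x|) ^ 2) by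
        push_cast; field_simp]
      rw [div_le_div_iff₀ (by positivity) (by positivity)]
      have h7 : (1 + |x|) ^ 2 ≤ 2 * (1 + x ^ 2) := by
        rw [← sq_abs x]
        nlinarith [sq_nonneg (1 - |x|)]
      have h8 : W * (W * Real.pi * (1 + |x|) ^ 2) ≤ W * (W * Real.pi * (2 * (1 + x ^ 2))) := by gcongr
      nlinarith
    have hp := PW_pos hW0 (t - τ)
    calc PW W (t - τ) * (4 + |t + u|) ^ (1 / 4096 : ℝ)
        ≤ (1 / W * (2 / Real.pi) * (1 + |x|) ^ (-2 : ℝ)) * ((7 * T) ^ (1 / 4096 : ℝ) * (1 + |x|) ^ (1 / 2 : ℝ)) := by gcongr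
      _ = (7 * T) ^ (1 / 4096 : ℝ) / W * (2 / Real.pi * ((1 + |x|) ^ (-2 : ℝ) * (1 + |x|) ^ (1 / 2 : ℝ))) := by ring
      _ = _ := by
          simp only [hg]
          rw [← Real.rpow_add (by positivity), Real.norm_eq_abs]
          norm_num
  have hcont : Continuous fun t => PW W (t - τ) * (4 + |t + u|) ^ (1 / 4096 : ℝ) := by
    refine (PW_cont hW0 τ).mul (Continuous.rpow_const (by fun_prop) fun t => Or.inl ?_)
    have := abs_nonneg (t + u)
    positivity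
  have hint : Integrable (fun t => PW W (t - τ) * (4 + |t + u|) ^ (1 / 4096 : ℝ)) := by
    refine (hI.const_mul ((7 * T) ^ (1 / 4096 : ℝ) / W)).mono' hcont.aestronglyMeasurable (ae_of_all _ fun t => ?_)
    rw [Real.norm_of_nonneg (mul_nonneg (PW_pos hW0 _).le (by positivity))]
    exact hle t
  refine ⟨hint, ?_⟩
  calc ∫ t, PW W (t - τ) * (4 + |t + u|) ^ (1 / 4096 : ℝ)
      ≤ ∫ t, (7 * T) ^ (1 / 4096 : ℝ) / W * g ((t - τ) / W) := integral_mono hint (hI.const_mul _) hle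
    _ = (7 * T) ^ (1 / 4096 : ℝ) * ∫ x, g x := by
        rw [integral_const_mul, hV]
        field_simp
    _ ≤ (7 * T ^ (1 / 4096 : ℝ)) * ∫ x, g x := by
        have h0 : 0 ≤ ∫ x, g x := integral_nonneg hg0
        have h1 : (7 * T) ^ (1 / 4096 : ℝ) ≤ 7 * T ^ (1 / 4096 : ℝ) := by
          rw [Real.mul_rpow (by norm_num) hT0.le]
          have : (7:ℝ) ^ (1 / 4096 : ℝ) ≤ 7 ^ (1 : ℝ) :=
            Real.rpow_le_rpow_of_exponent_le (by norm_num) (by norm_num)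
          rw [Real.rpow_one] at this
          gcongr
        gcongr
    _ ≤ _ := by
        simp only [add_zero]
        have : 0 ≤ T ^ (1 / 4096 : ℝ) := by positivity
        nlinarith

theorem amgm {a D e k : ℝ} (hD : 0 ≤ D) (he : 0 < e) (hk : 0 < k) :
    a * D ≤ e / 2 * a ^ 2 + 1 / (4 * e) * (k * D + D ^ 3 / k) := by
  have h1 : a * D ≤ e / 2 * a ^ 2 + 1 / (2 * e) * D ^ 2 := by
    have h2 : 0 ≤ (e * a - D) ^ 2 / (2 * e) := by positivity
    have h3 : (e * a - D) ^ 2 / (2 * e) = e / 2 * a ^ 2 + 1 / (2 * e) * D ^ 2 - a * D := by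
      field_simp; ring
    linarith
  have h4 : D ^ 2 ≤ (k * D + D ^ 3 / k) / 2 := by
    have h5 : 0 ≤ D * (k - D) ^ 2 / (2 * k) := by positivity
    have h6 : D * (k - D) ^ 2 / (2 * k) = (k * D + D ^ 3 / k) / 2 - D ^ 2 := by
      field_simp; ring
    linarith
  calc a * D ≤ e / 2 * a ^ 2 + 1 / (2 * e) * D ^ 2 := h1
    _ ≤ e / 2 * a ^ 2 + 1 / (2 * e) * ((k * D + D ^ 3 / k) / 2) := by gcongr
    _ = _ := by field_simp; ring

theorem ex_pow (B : ℝ) : ∃ T2 : ℝ, ∀ T, T2 ≤ T → B ≤ T ^ (1 / 10000 : ℝ) :=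
  eventually_atTop.mp ((tendsto_rpow_atTop (by norm_num)).eventually_ge_atTop B)

theorem mDeep_aux : ∃ c0 T0 : ℝ, ∀ T, T0 ≤ T → ∀ c, Adm c0 T c → ∀ v : ℝ, v ^ 2 = c / 100 →
    ∀ τ u : ℝ, |τ| ≤ 2 * T → |u| ≤ T →
    Integrable (fun t => wt T c v τ t * DD (XX T c) (t + u)) ∧
    ∫ t, wt T c v τ t * DD (XX T c) (t + u) ≤ T ^ (-(1 / 2000) : ℝ) * VV T c v := by
  obtain ⟨A, c0a, Ta, hm4⟩ := Pool.Agent.Helper60.UG.m4
  obtain ⟨c0b, Tb, hbd⟩ := Pool.Agent.Helper60.UG.rr_bd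
  obtain ⟨T1, hT13, hmD⟩ := mDD
  obtain ⟨C2, hC2, hcube⟩ := DD_cube
  obtain ⟨C1, hC1, hpoly⟩ := mPoly
  obtain ⟨T2, hT2⟩ := ex_pow (1 + C1 * C2 / 4)
  set A' := max A 1 with hA'
  have hA1 : 1 ≤ A' := le_max_right _ _
  refine ⟨max (max c0a c0b) 1, max (max (max Ta Tb) T1) (max (Real.exp (Real.exp (256 * A')))
    T2), ?_⟩
  intro T hT c hAdm v hv τ u hτ hu
  have hTa : Ta ≤ T := (le_max_left _ _).trans ((le_max_left _ _).trans ((le_max_left _ _).trans hT))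
  have hTb : Tb ≤ T := (le_max_right _ _).trans ((le_max_left _ _).trans ((le_max_left _ _).trans hT))
  have hT1 : T1 ≤ T := (le_max_right _ _).trans ((le_max_left _ _).trans hT)
  have hTe : Real.exp (Real.exp (256 * A')) ≤ T := (le_max_left _ _).trans ((le_max_right _ _).trans hT)
  have hTC : 1 + C1 * C2 / 4 ≤ T ^ (1 / 10000 : ℝ) := hT2 T ((le_max_right _ _).trans ((le_max_right _ _).trans hT))
  have hT3 : 3 ≤ T := hT13.trans hT1
  have hT0 : 0 < T := by linarith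
  have hTg1 : 1 ≤ T := by linarith
  obtain ⟨hc0, hcL⟩ := hAdm
  have hca : Adm c0a T c := ⟨(le_max_left _ _).trans ((le_max_left _ _).trans hc0), hcL⟩
  have hcb : Adm c0b T c := ⟨(le_max_right _ _).trans ((le_max_left _ _).trans hc0), hcL⟩
  have hc1 : 1 ≤ c := (le_max_right _ _).trans hc0
  have hcp : 0 < c := by linarith
  obtain ⟨hm4i, hm4v⟩ := hm4 T hTa c hca v hv τ
  have hV1 : 1 ≤ VV T c v := (hbd T hTb c hcb v hv 0).2
  have hLe : Real.exp (256 * A') ≤ Real.log T := by rw [Real.le_log_iff_exp_le hT0]; exact hTe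
  have hL0 : 0 < Real.log T := (Real.exp_pos _).trans_le hLe
  have hll : 256 * A' ≤ Real.log (Real.log T) := by rw [Real.le_log_iff_exp_le hL0]; exact hLe
  have hAc : A' * c ≤ Real.log T / 4096 := by
    have h1 : c * (256 * A') ≤ c * Real.log (Real.log T) := by gcongr
    linarith
  set L := Real.log T with hLd
  set V := VV T c v with hVd
  have hV0 : 0 < V := by linarith
  have hX : 1 ≤ XX T c := by
    unfold XX
    rw [le_div_iff₀ hcp]
    have h1 : 1 * c ≤ A' * c := by gcongr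
    rw [← hLd]
    linarith
  have hS : Real.exp (A' * c) ≤ T ^ (1 / 4096 : ℝ) := by
    rw [Real.rpow_def_of_pos hT0, Real.exp_le_exp, ← hLd]
    linarith
  have hEA : Real.exp (A * c) ≤ T ^ (1 / 4096 : ℝ) :=
    (Real.exp_le_exp.mpr (mul_le_mul_of_nonneg_right (le_max_left _ _) hcp.le)).trans hS
  have hcS : c ≤ T ^ (1 / 4096 : ℝ) := by
    refine le_trans ?_ hS
    have h1 := Real.add_one_le_exp (A' * c)
    have h2 : 1 * c ≤ A' * c := by gcongr
    linarith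
  obtain ⟨hDi, hDv⟩ := hmD T hT1 (XX T c) hX τ u hτ hu
  obtain ⟨hPi, hPv⟩ := hpoly T hT3 τ u hτ hu
  have hDv' : ∫ t, PW (WW T) (t - τ) * DD (XX T c) (t + u) ≤ 2 * c * T ^ (-(15 / 4096) : ℝ) := by
    refine hDv.trans (le_of_eq ?_)
    unfold XX
    rw [← hLd]
    field_simp
  have hW0 : 0 < WW T := Real.rpow_pos_of_pos hT0 _
  set e : ℝ := T ^ (-(15 / 16384) : ℝ) / V with he
  have he0 : 0 < e := by positivity
  set k : ℝ := T ^ (15 / 8192 : ℝ) with hk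
  have hk0 : 0 < k := by positivity
  -- the dominating function
  set F : ℝ → ℝ := fun t => e / 2 * (PW (WW T) (t - τ) * ‖RR T c v t‖ ^ 4) +
    (k / (4 * e) * (PW (WW T) (t - τ) * DD (XX T c) (t + u)) +
      C2 / (4 * e * k) * (PW (WW T) (t - τ) * (4 + |t + u|) ^ (1 / 4096 : ℝ))) with hF
  have hFi : Integrable F := (hm4i.const_mul _).add ((hDi.const_mul _).add (hPi.const_mul _))
  have hle : ∀ t, wt T c v τ t * DD (XX T c) (t + u) ≤ F t := by
    intro t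
    have hD0 := DD_nonneg (XX T c) (t + u)
    have hp := PW_pos hW0 (t - τ)
    have h1 := amgm (a := ‖RR T c v t‖ ^ 2) hD0 he0 hk0
    have h2 := hcube (XX T c) (t + u) hX
    have h3 : 1 / (4 * e) * (k * DD (XX T c) (t + u) + DD (XX T c) (t + u) ^ 3 / k) ≤
        1 / (4 * e) * (k * DD (XX T c) (t + u) + (C2 * (4 + |t + u|) ^ (1 / 4096 : ℝ)) / k) := by gcongr
    calc wt T c v τ t * DD (XX T c) (t + u) = PW (WW T) (t - τ) * (‖RR T c v t‖ ^ 2 * DD (XX T c) (t + u)) := by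
          unfold wt; ring
      _ ≤ PW (WW T) (t - τ) * (e / 2 * (‖RR T c v t‖ ^ 2) ^ 2 +
          1 / (4 * e) * (k * DD (XX T c) (t + u) + (C2 * (4 + |t + u|) ^ (1 / 4096 : ℝ)) / k)) := by
          refine mul_le_mul_of_nonneg_left (h1.trans ?_) hp.le
          linarith
      _ = F t := by
          simp only [hF]
          field_simp
  have hmeas : AEStronglyMeasurable (fun t => wt T c v τ t * DD (XX T c) (t + u)) := by
    have h1 : AEStronglyMeasurable (fun t => ‖RR T c v t‖ ^ 2 * (PW (WW T) (t - τ) * DD (XX T c) (t + u))) :=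
      (((Pool.Agent.Helper60.UG.RR_cont T c v).norm.pow 2).aestronglyMeasurable).mul hDi.aestronglyMeasurable
    refine h1.congr (ae_of_all _ fun t => ?_)
    simp only [wt]
    ring
  have hwt0 : ∀ t, 0 ≤ wt T c v τ t * DD (XX T c) (t + u) := by
    intro t
    have hD0 := DD_nonneg (XX T c) (t + u)
    have hp := PW_pos hW0 (t - τ)
    unfold wt
    positivity
  have hint : Integrable (fun t => wt T c v τ t * DD (XX T c) (t + u)) := by
    refine hFi.mono' hmeas (ae_of_all _ fun t => ?_)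
    rw [Real.norm_of_nonneg (hwt0 t)]
    exact hle t
  refine ⟨hint, ?_⟩
  have hFv : ∫ t, F t = e / 2 * (∫ t, PW (WW T) (t - τ) * ‖RR T c v t‖ ^ 4) +
      (k / (4 * e) * (∫ t, PW (WW T) (t - τ) * DD (XX T c) (t + u)) +
      C2 / (4 * e * k) * (∫ t, PW (WW T) (t - τ) * (4 + |t + u|) ^ (1 / 4096 : ℝ))) := by
    simp only [hF]
    have i23 : Integrable (fun t => k / (4 * e) * (PW (WW T) (t - τ) * DD (XX T c) (t + u)) +
      C2 / (4 * e * k) * (PW (WW T) (t - τ) * (4 + |t + u|) ^ (1 / 4096 : ℝ))) :=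
      (hDi.const_mul _).add (hPi.const_mul _)
    rw [integral_add (hm4i.const_mul _) i23,
      integral_add (hDi.const_mul _) (hPi.const_mul _), integral_const_mul, integral_const_mul, integral_const_mul]
  -- the three bounds
  set S : ℝ := T ^ (1 / 4096 : ℝ) with hSd
  have hS0 : 0 < S := by positivity
  set Q : ℝ := T ^ (-(11 / 16384) : ℝ) with hQ
  have hQ0 : 0 < Q := by positivity
  have hSQ : T ^ (-(15 / 16384) : ℝ) * S = Q := by
    rw [hSd, hQ, ← Real.rpow_add hT0]; norm_num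
  have b1 : e / 2 * (∫ t, PW (WW T) (t - τ) * ‖RR T c v t‖ ^ 4) ≤ Q / 2 * V := by
    calc e / 2 * (∫ t, PW (WW T) (t - τ) * ‖RR T c v t‖ ^ 4) ≤ e / 2 * (S * V ^ 2) := by
          refine mul_le_mul_of_nonneg_left (hm4v.trans ?_) (by positivity)
          gcongr
      _ = (T ^ (-(15 / 16384) : ℝ) * S) / 2 * V := by
          rw [he]; field_simp
      _ = _ := by rw [hSQ]
  have b2 : k / (4 * e) * (∫ t, PW (WW T) (t - τ) * DD (XX T c) (t + u)) ≤ Q / 2 * V := by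
    have h1 : k * T ^ (-(15 / 4096) : ℝ) = T ^ (-(15 / 16384) : ℝ) * T ^ (-(15 / 16384) : ℝ) := by
      rw [hk, ← Real.rpow_add hT0, ← Real.rpow_add hT0]; norm_num
    calc k / (4 * e) * (∫ t, PW (WW T) (t - τ) * DD (XX T c) (t + u))
        ≤ k / (4 * e) * (2 * S * T ^ (-(15 / 4096) : ℝ)) := by
          refine mul_le_mul_of_nonneg_left (hDv'.trans ?_) (by positivity)
          gcongr
      _ = (k * T ^ (-(15 / 4096) : ℝ)) * S / (2 * e) := by field_simp; ring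
      _ = (T ^ (-(15 / 16384) : ℝ) * S) / 2 * V := by
          rw [h1, he]
          have h2 : T ^ (-(15 / 16384) : ℝ) ≠ 0 := by positivity
          field_simp
      _ = _ := by rw [hSQ]
  have b3 : C2 / (4 * e * k) * (∫ t, PW (WW T) (t - τ) * (4 + |t + u|) ^ (1 / 4096 : ℝ)) ≤
      C1 * C2 / 4 * Q * V := by
    have h1 : S = k * T ^ (-(15 / 16384) : ℝ) * Q := by
      rw [hSd, hk, hQ, ← Real.rpow_add hT0, ← Real.rpow_add hT0]; norm_num
    calc C2 / (4 * e * k) * (∫ t, PW (WW T) (t - τ) * (4 + |t + u|) ^ (1 / 4096 : ℝ))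
        ≤ C2 / (4 * e * k) * (C1 * S) := mul_le_mul_of_nonneg_left hPv (by positivity)
      _ = C2 / (4 * e * k) * (C1 * (k * T ^ (-(15 / 16384) : ℝ) * Q)) := by rw [← h1]
      _ = _ := by
          rw [he]
          have h2 : T ^ (-(15 / 16384) : ℝ) ≠ 0 := by positivity
          field_simp
  have hfin : (1 + C1 * C2 / 4) * Q ≤ T ^ (-(1 / 2000) : ℝ) := by
    calc (1 + C1 * C2 / 4) * Q ≤ T ^ (1 / 10000 : ℝ) * Q := by gcongr
      _ = T ^ (1 / 10000 + -(11 / 16384) : ℝ) := by rw [hQ, ← Real.rpow_add hT0]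
      _ ≤ _ := Real.rpow_le_rpow_of_exponent_le hTg1 (by norm_num)
  calc ∫ t, wt T c v τ t * DD (XX T c) (t + u) ≤ ∫ t, F t := integral_mono hint hFi hle
    _ ≤ Q / 2 * V + (Q / 2 * V + C1 * C2 / 4 * Q * V) := by
        rw [hFv]
        exact add_le_add b1 (add_le_add b2 b3)
    _ = ((1 + C1 * C2 / 4) * Q) * V := by ring
    _ ≤ _ := by gcongr

open Classical in
/-- Z6: zeros with `|β - 1/2| ≥ 1/64`, from `deep`, R7, Z2 -/
theorem mDeep : ∃ c0 T0 : ℝ, ∀ T, T0 ≤ T → ∀ c, Adm c0 T c → ∀ v : ℝ, v ^ 2 = c / 100 →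
    ∀ τ u : ℝ, |τ| ≤ 2 * T → |u| ≤ T →
    Integrable (fun t => wt T c v τ t * ∑' ρ : ZS, mx ρ * (if |(ρ : ℂ).re - 1 / 2| < 1 / 64 then 0 else
      1 / (1 + zb (XX T c) (t + u) ρ ^ 2))) ∧
    ∫ t, wt T c v τ t * ∑' ρ : ZS, mx ρ * (if |(ρ : ℂ).re - 1 / 2| < 1 / 64 then 0 else
      1 / (1 + zb (XX T c) (t + u) ρ ^ 2)) ≤ T ^ (-(1 / 2000) : ℝ) * VV T c v := mDeep_aux

end Pool.Agent.Helper53.UG
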