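import Pool.Agent.Helper69.UG.Defs
import Pool.Agent.Helper54.LG.Conv
import Pool.Agent.Helper57.ED.Deep

/-!
# UG Z6: zeros far from the line (first part: the mean of the sum, and a pointwise bound)
-/

set_option autoImplicit false
open MeasureTheory Set Filter Topology
open Pool.Agent.Helper57.Zeta Pool.Agent.Helper57.LH Pool.Agent.Helper57.ED Pool.Agent.Helper54.LG
open Pool.Agent.Helper69.UG

namespace Pool.Agent.Helper53.UG

open Classical in
/-- The sum over the zeros with `|β - 1/2| ≥ 1/64`. -/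
noncomputable def DD (X t : ℝ) : ℝ := ∑' ρ : ZS, mx ρ * (if |(ρ : ℂ).re - 1 / 2| < 1 / 64 then 0 else
    1 / (1 + zb X t ρ ^ 2))

theorem DD_nonneg (X t : ℝ) : 0 ≤ DD X t := by
  unfold DD
  refine tsum_nonneg fun ρ => mul_nonneg (mx_nonneg _) ?_
  split_ifs
  · exact le_rfl
  · positivity

/-- Infinite sums of nonnegative integrable functions. -/
theorem tsum_bound {ι : Type*} [Countable ι] {F : ι → ℝ → ℝ} (hF0 : ∀ i t, 0 ≤ F i t)
    (hFm : ∀ i, Measurable (F i)) (hFi : ∀ i, Integrable (F i)) {B : ℝ}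
    (hB : ∀ Z : Finset ι, ∑ i ∈ Z, ∫ t, F i t ≤ B) :
    Integrable (fun t => ∑' i, F i t) ∧ ∫ t, ∑' i, F i t ≤ B := by
  have hB0 : 0 ≤ B := by simpa using hB ∅
  have e1 : (fun t => ∑' i, F i t) = fun t => (∑' i, ENNReal.ofReal (F i t)).toReal := by
    funext t
    rw [ENNReal.tsum_toReal_eq (fun i => ENNReal.ofReal_ne_top)]
    simp only [ENNReal.toReal_ofReal (hF0 _ _)]
  have hm : Measurable (fun t => ∑' i, ENNReal.ofReal (F i t)) :=
    Measurable.tsum fun i => (hFm i).ennreal_ofReal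
  have hl : ∫⁻ t, ∑' i, ENNReal.ofReal (F i t) ≤ ENNReal.ofReal B := by
    rw [lintegral_tsum fun i => (hFm i).ennreal_ofReal.aemeasurable]
    rw [ENNReal.tsum_eq_iSup_sum]
    refine iSup_le fun Z => ?_
    have e2 : ∀ i, ∫⁻ t, ENNReal.ofReal (F i t) = ENNReal.ofReal (∫ t, F i t) := by
      intro i
      rw [ofReal_integral_eq_lintegral_ofReal (hFi i) (ae_of_all _ (hF0 i))]
    simp only [e2]
    rw [← ENNReal.ofReal_sum_of_nonneg fun i _ => integral_nonneg (hF0 i)]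
    exact ENNReal.ofReal_le_ofReal (hB Z)
  have hne : ∫⁻ t, ∑' i, ENNReal.ofReal (F i t) ≠ ⊤ :=
    (hl.trans_lt ENNReal.ofReal_lt_top).ne
  rw [e1]
  refine ⟨integrable_toReal_of_lintegral_ne_top hm.aemeasurable hne, ?_⟩
  rw [integral_toReal hm.aemeasurable (ae_lt_top hm hne)]
  calc (∫⁻ t, ∑' i, ENNReal.ofReal (F i t)).toReal ≤ (ENNReal.ofReal B).toReal :=
        ENNReal.toReal_mono ENNReal.ofReal_ne_top hl
    _ = B := ENNReal.toReal_ofReal hB0

theorem PW_cont {W : ℝ} (hW : 0 < W) (τ : ℝ) : Continuous fun t => PW W (t - τ) := by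
  have hpi := Real.pi_pos
  unfold PW
  refine Continuous.div continuous_const (by fun_prop) fun t => ?_
  positivity

theorem PW_scale {W T : ℝ} (hW : 0 < W) (hWT : W ≤ T) (s : ℝ) : PW W s ≤ T / W * PW T s := by
  have hpi := Real.pi_pos
  have hT : 0 < T := by linarith
  unfold PW
  have h1 : 0 < W ^ 2 + s ^ 2 := by positivity
  have h2 : 0 < T ^ 2 + s ^ 2 := by positivity
  rw [div_mul_div_comm, div_le_div_iff₀ (by positivity) (by positivity)]
  have h3 : W ^ 2 * s ^ 2 ≤ T ^ 2 * s ^ 2 := by gcongr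
  have h4 : 0 ≤ (T ^ 2 * s ^ 2 - W ^ 2 * s ^ 2) * Real.pi := mul_nonneg (by linarith) hpi.le
  nlinarith

/-- Both sides of the line, for one scale `T`. -/
theorem deep_two : ∃ T1 : ℝ, ∀ T, T1 ≤ T → ∀ τ : ℝ, |τ| ≤ 3 * T → ∀ Z : Finset ZS,
    (∀ ρ ∈ Z, 1 / 64 ≤ |(ρ : ℂ).re - 1 / 2|) →
    ∑ ρ ∈ Z, mx ρ * PW T ((ρ : ℂ).im - τ) ≤ Real.log T / Real.pi * T ^ (-(1 / 256) : ℝ) := by
  classical
  have hpi := Real.pi_pos
  obtain ⟨Y, hY, hD⟩ := deep (K := 3) (ε := 1) (by norm_num) one_pos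
  obtain ⟨T1, hT1⟩ := eventually_atTop.mp hD
  refine ⟨max (max T1 (Real.exp (128 * Real.pi * Y))) 3, ?_⟩
  intro T hT τ hτ Z hZ
  have hTa : T1 ≤ T := (le_max_left _ _).trans ((le_max_left _ _).trans hT)
  have hTb : Real.exp (128 * Real.pi * Y) ≤ T := (le_max_right _ _).trans ((le_max_left _ _).trans hT)
  have hT3 : 3 ≤ T := (le_max_right _ _).trans hT
  have hT0 : 0 < T := by linarith
  have hL : 0 < Real.log T := Real.log_pos (by linarith)
  have hLY : 128 * Real.pi * Y ≤ Real.log T := by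
    rw [Real.le_log_iff_exp_le hT0]; exact hTb
  have hD' := hT1 T hTa τ hτ
  have hone : ∀ Z' : Finset ZS, (∀ ρ ∈ Z', 1 / 64 ≤ (ρ : ℂ).re - 1 / 2) →
      ∑ ρ ∈ Z', mx ρ * PW T ((ρ : ℂ).im - τ) ≤ Real.log T / (2 * Real.pi) * T ^ (-(1 / 256) : ℝ) := by
    intro Z' hZ'
    have hyy : ∀ ρ ∈ Z', Y ≤ yy T ρ := by
      intro ρ hρ
      unfold yy
      rw [le_div_iff₀ (by positivity)]
      have h1 : Real.log T * (1 / 64) ≤ Real.log T * ((ρ : ℂ).re - 1 / 2) :=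
        mul_le_mul_of_nonneg_left (hZ' ρ hρ) hL.le
      nlinarith
    have h2 := hD' Z' hyy
    have h3 : ∀ ρ ∈ Z', mx ρ * PW T ((ρ : ℂ).im - τ) ≤ Real.log T / (2 * Real.pi) * T ^ (-(1 / 256) : ℝ) *
        (mx ρ * (2 * Real.pi / Real.log T * PW T ((ρ : ℂ).im - τ)) * Real.exp (Real.pi / 2 * yy T ρ)) := by
      intro ρ hρ
      have h4 : T ^ (1 / 256 : ℝ) ≤ Real.exp (Real.pi / 2 * yy T ρ) := by
        rw [Real.rpow_def_of_pos hT0, Real.exp_le_exp]
        unfold yy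
        have e : Real.pi / 2 * (Real.log T * ((ρ : ℂ).re - 1 / 2) / (2 * Real.pi)) =
            Real.log T * (((ρ : ℂ).re - 1 / 2) / 4) := by
          field_simp
          ring
        rw [e]
        refine mul_le_mul_of_nonneg_left ?_ hL.le
        have := hZ' ρ hρ
        linarith
      have hp := PW_pos hT0 ((ρ : ℂ).im - τ)
      have hm := mx_nonneg (ρ : ℂ)
      have h5 : 1 ≤ T ^ (-(1 / 256) : ℝ) * Real.exp (Real.pi / 2 * yy T ρ) := by
        have h6 : T ^ (-(1 / 256) : ℝ) * T ^ (1 / 256 : ℝ) = 1 := by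
          rw [← Real.rpow_add hT0]; norm_num
        calc (1:ℝ) = T ^ (-(1 / 256) : ℝ) * T ^ (1 / 256 : ℝ) := h6.symm
          _ ≤ _ := by gcongr
      calc mx ρ * PW T ((ρ : ℂ).im - τ) = mx ρ * PW T ((ρ : ℂ).im - τ) * 1 := by ring
        _ ≤ mx ρ * PW T ((ρ : ℂ).im - τ) * (T ^ (-(1 / 256) : ℝ) * Real.exp (Real.pi / 2 * yy T ρ)) := by gcongr
        _ = _ := by
            have hLn : Real.log T ≠ 0 := hL.ne'
            field_simp
    calc ∑ ρ ∈ Z', mx ρ * PW T ((ρ : ℂ).im - τ)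
        ≤ ∑ ρ ∈ Z', Real.log T / (2 * Real.pi) * T ^ (-(1 / 256) : ℝ) *
          (mx ρ * (2 * Real.pi / Real.log T * PW T ((ρ : ℂ).im - τ)) * Real.exp (Real.pi / 2 * yy T ρ)) :=
          Finset.sum_le_sum h3
      _ = Real.log T / (2 * Real.pi) * T ^ (-(1 / 256) : ℝ) *
          ∑ ρ ∈ Z', (mx ρ * (2 * Real.pi / Real.log T * PW T ((ρ : ℂ).im - τ)) * Real.exp (Real.pi / 2 * yy T ρ)) := by
          rw [Finset.mul_sum]
      _ ≤ Real.log T / (2 * Real.pi) * T ^ (-(1 / 256) : ℝ) * 1 := by gcongr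
      _ = _ := by ring
  have h1 := hone (Z.filter fun ρ : ZS => 1 / 2 ≤ (ρ : ℂ).re) (by
    intro ρ hρ
    rw [Finset.mem_filter] at hρ
    have := hZ ρ hρ.1
    rwa [abs_of_nonneg (by linarith [hρ.2])] at this)
  have h2 := hone ((Z.filter fun ρ : ZS => ¬ 1 / 2 ≤ (ρ : ℂ).re).map refl.toEmbedding) (by
    intro σ hσ
    rw [Finset.mem_map] at hσ
    obtain ⟨ρ, hρ, rfl⟩ := hσ
    rw [Finset.mem_filter, not_le] at hρ
    have := hZ ρ hρ.1
    rw [abs_of_neg (by linarith [hρ.2])] at this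
    rw [Equiv.coe_toEmbedding, refl_re]
    linarith)
  rw [Finset.sum_map] at h2
  have h3 : ∑ ρ ∈ Z.filter (fun ρ : ZS => ¬ 1 / 2 ≤ (ρ : ℂ).re),
      mx (refl.toEmbedding ρ : ZS) * PW T (((refl.toEmbedding ρ : ZS) : ℂ).im - τ) =
      ∑ ρ ∈ Z.filter (fun ρ : ZS => ¬ 1 / 2 ≤ (ρ : ℂ).re), mx ρ * PW T ((ρ : ℂ).im - τ) := by
    refine Finset.sum_congr rfl fun ρ _ => ?_
    rw [Equiv.coe_toEmbedding, refl_mx, refl_im]
  rw [h3] at h2
  rw [← Finset.sum_filter_add_sum_filter_not Z (fun ρ : ZS => 1 / 2 ≤ (ρ : ℂ).re)]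
  calc _ ≤ Real.log T / (2 * Real.pi) * T ^ (-(1 / 256) : ℝ) + Real.log T / (2 * Real.pi) * T ^ (-(1 / 256) : ℝ) :=
        add_le_add h1 h2
    _ = _ := by field_simp; ring

/-- The mean of `DD`. -/
theorem mDD : ∃ T1 : ℝ, 3 ≤ T1 ∧ ∀ T, T1 ≤ T → ∀ X : ℝ, 1 ≤ X → ∀ τ u : ℝ, |τ| ≤ 2 * T → |u| ≤ T →
    Integrable (fun t => PW (WW T) (t - τ) * DD X (t + u)) ∧
    ∫ t, PW (WW T) (t - τ) * DD X (t + u) ≤ 2 * Real.log T / X * T ^ (-(15 / 4096) : ℝ) := by
  classical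
  have hpi := Real.pi_pos
  obtain ⟨T1, hT1⟩ := deep_two
  refine ⟨max T1 3, le_max_right _ _, ?_⟩
  intro T hT X hX τ u hτ hu
  have hTa : T1 ≤ T := (le_max_left _ _).trans hT
  have hT3 : 3 ≤ T := (le_max_right _ _).trans hT
  have hT0 : 0 < T := by linarith
  have hL : 0 < Real.log T := Real.log_pos (by linarith)
  have hW0 : 0 < WW T := Real.rpow_pos_of_pos hT0 _
  have hW1 : 1 ≤ WW T := Real.one_le_rpow (by linarith) (by norm_num)
  have hWT : WW T ≤ T := by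
    unfold WW
    calc T ^ (4095 / 4096 : ℝ) ≤ T ^ (1 : ℝ) := Real.rpow_le_rpow_of_exponent_le (by linarith) (by norm_num)
      _ = T := Real.rpow_one T
  have hTW : T / WW T = T ^ (1 / 4096 : ℝ) := by
    unfold WW
    rw [div_eq_iff (Real.rpow_pos_of_pos hT0 _).ne', ← Real.rpow_add hT0]
    norm_num
  have hX0 : 0 < X := by linarith
  have hτu : |τ + u| ≤ 3 * T := (abs_add_le _ _).trans (by linarith)
  have e1 : ∀ t, PW (WW T) (t - τ) * DD X (t + u) = ∑' ρ : ZS, PW (WW T) (t - τ) *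
      (mx ρ * (if |(ρ : ℂ).re - 1 / 2| < 1 / 64 then 0 else 1 / (1 + zb X (t + u) ρ ^ 2))) := by
    intro t
    unfold DD
    rw [tsum_mul_left]
  have e2 : ∀ (ρ : ZS) (t : ℝ), zb X (t + u) ρ = X * (t - ((ρ : ℂ).im - u)) := by
    intro ρ t
    unfold zb
    ring
  simp only [e1]
  refine tsum_bound ?_ ?_ ?_ ?_
  · intro ρ t
    have hp := PW_pos hW0 (t - τ)
    have hm := mx_nonneg (ρ : ℂ)
    refine mul_nonneg hp.le (mul_nonneg hm ?_)
    split_ifs
    · exact le_rfl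
    · positivity
  · intro ρ
    refine (PW_cont hW0 τ).measurable.mul (Measurable.const_mul ?_ _)
    split_ifs
    · exact measurable_const
    · simp only [e2]
      refine Continuous.measurable (Continuous.div continuous_const (by fun_prop) fun t => ?_)
      positivity
  · intro ρ
    by_cases h : |(ρ : ℂ).re - 1 / 2| < 1 / 64
    · simp only [if_pos h, mul_zero]
      exact integrable_zero _ _ _
    · simp only [if_neg h, e2]
      have hc := (conv_le hW0 hX0 τ ((ρ : ℂ).im - u)).1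
      refine (hc.const_mul (mx ρ)).congr (ae_of_all _ fun t => ?_)
      simp only
      ring
  · intro Z
    have hone : ∀ ρ ∈ Z, ∫ t, PW (WW T) (t - τ) *
        (mx ρ * (if |(ρ : ℂ).re - 1 / 2| < 1 / 64 then 0 else 1 / (1 + zb X (t + u) ρ ^ 2))) ≤
        if 1 / 64 ≤ |(ρ : ℂ).re - 1 / 2| then 2 * Real.pi / X * T ^ (1 / 4096 : ℝ) *
          (mx ρ * PW T ((ρ : ℂ).im - (τ + u))) else 0 := by
      intro ρ _
      by_cases h : |(ρ : ℂ).re - 1 / 2| < 1 / 64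
      · rw [if_neg (not_le.mpr h)]
        simp only [if_pos h, mul_zero, integral_zero]
        exact le_rfl
      · rw [if_pos (not_lt.mp h)]
        simp only [if_neg h, e2]
        have hc := (conv_le hW0 hX0 τ ((ρ : ℂ).im - u)).2
        have e3 : ∀ t, PW (WW T) (t - τ) * (mx ρ * (1 / (1 + (X * (t - ((ρ : ℂ).im - u))) ^ 2))) =
            mx ρ * (PW (WW T) (t - τ) * (1 / (1 + (X * (t - ((ρ : ℂ).im - u))) ^ 2))) := by
          intro t; ring
        simp only [e3]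
        rw [integral_const_mul]
        have hm := mx_nonneg (ρ : ℂ)
        have hp := PW_pos hT0 ((ρ : ℂ).im - (τ + u))
        have hp2 := PW_pos hW0 ((ρ : ℂ).im - u - τ)
        have h1 : 1 / (WW T * X) ≤ 1 := by
          rw [div_le_one (by positivity)]
          nlinarith
        have h2 := PW_scale hW0 hWT ((ρ : ℂ).im - u - τ)
        rw [hTW, show (ρ : ℂ).im - u - τ = (ρ : ℂ).im - (τ + u) by ring] at h2
        rw [show (ρ : ℂ).im - u - τ = (ρ : ℂ).im - (τ + u) by ring] at hc hp2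
        calc mx ρ * ∫ t, PW (WW T) (t - τ) * (1 / (1 + (X * (t - ((ρ : ℂ).im - u))) ^ 2))
            ≤ mx ρ * (Real.pi / X * (1 + 1 / (WW T * X)) * PW (WW T) ((ρ : ℂ).im - (τ + u))) := by gcongr
          _ ≤ mx ρ * (Real.pi / X * (1 + 1) * (T ^ (1 / 4096 : ℝ) * PW T ((ρ : ℂ).im - (τ + u)))) := by gcongr
          _ = _ := by ring
    refine (Finset.sum_le_sum hone).trans ?_
    rw [← Finset.sum_filter, ← Finset.mul_sum]
    have h4 := hT1 T hTa (τ + u) hτu (Z.filter fun ρ : ZS => 1 / 64 ≤ |(ρ : ℂ).re - 1 / 2|)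
      (fun ρ hρ => (Finset.mem_filter.mp hρ).2)
    have e4 : 2 * Real.pi / X * T ^ (1 / 4096 : ℝ) * (Real.log T / Real.pi * T ^ (-(1 / 256) : ℝ)) =
        2 * Real.log T / X * T ^ (-(15 / 4096) : ℝ) := by
      have e5 : T ^ (-(15 / 4096) : ℝ) = T ^ (1 / 4096 : ℝ) * T ^ (-(1 / 256) : ℝ) := by
        rw [← Real.rpow_add hT0]; norm_num
      rw [e5]
      field_simp
    rw [← e4]
    gcongr

end Pool.Agent.Helper53.UG
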