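import Pool.Agent.Helper54.LG.Cos

/-!
# UG-R11, part 1: mean squares of exponential sums with the Poisson kernel
-/

set_option autoImplicit false
open MeasureTheory Set Filter Topology
open Pool.Agent.Helper57.Zeta Pool.Agent.Helper57.LH Pool.Agent.Helper57.ED Pool.Agent.Helper54.LG

namespace Pool.Agent.Helper53.UG

/-- the wave `e^{-i t log n}` -/
noncomputable def ew (n : ℕ) (t : ℝ) : ℂ := Complex.exp (Complex.I * ((-Real.log n * t : ℝ) : ℂ))

lemma ew_cont (n : ℕ) : Continuous (ew n) := by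
  unfold ew
  fun_prop

lemma ew_norm (n : ℕ) (t : ℝ) : ‖ew n t‖ = 1 := by
  unfold ew
  rw [mul_comm, Complex.norm_exp_ofReal_mul_I]

lemma ew_add (n : ℕ) (t u : ℝ) : ew n (t + u) = ew n t * ew n u := by
  unfold ew
  rw [← Complex.exp_add]
  congr 1
  push_cast
  ring

lemma ew_mul {m n : ℕ} (hm : m ≠ 0) (hn : n ≠ 0) (t : ℝ) : ew (m * n) t = ew m t * ew n t := by
  unfold ew
  rw [← Complex.exp_add]
  congr 1
  rw [Nat.cast_mul, Real.log_mul (by exact_mod_cast hm) (by exact_mod_cast hn)]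
  push_cast
  ring

lemma ew_re (n : ℕ) (t : ℝ) : (ew n t).re = Real.cos (t * Real.log n) := by
  unfold ew
  rw [mul_comm, Complex.exp_ofReal_mul_I_re, neg_mul, Real.cos_neg, mul_comm]

lemma cpow_ew {n : ℕ} (hn : n ≠ 0) (t : ℝ) :
    (n : ℂ) ^ (-((1 / 2 : ℂ) + (t : ℂ) * Complex.I)) = (((√n)⁻¹ : ℝ) : ℂ) * ew n t := by
  have hn0 : (n : ℂ) ≠ 0 := by exact_mod_cast hn
  have hnR : (0:ℝ) < n := by exact_mod_cast Nat.pos_of_ne_zero hn
  have e1 : (((√n)⁻¹ : ℝ) : ℂ) = (n : ℂ) ^ (-(1 / 2 : ℂ)) := by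
    rw [Real.sqrt_eq_rpow, ← Real.rpow_neg hnR.le, Complex.ofReal_cpow hnR.le]
    push_cast
    rfl
  rw [e1, neg_add, Complex.cpow_add _ _ hn0]
  congr 1
  unfold ew
  rw [Complex.cpow_def_of_ne_zero hn0, ← Complex.natCast_log]
  congr 1
  push_cast
  ring

/-- separation of the logarithms -/
lemma log_sep {m n : ℕ} {N : ℝ} (hm : 1 ≤ m) (hn : 1 ≤ n) (hmN : (m : ℝ) ≤ N) (hnN : (n : ℝ) ≤ N) (h : m ≠ n) :
    1 / N ≤ |Real.log n - Real.log m| := by
  wlog hlt : m < n generalizing m n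
  · rw [abs_sub_comm]
    exact this hn hm hnN hmN (Ne.symm h) (lt_of_le_of_ne (not_lt.1 hlt) (Ne.symm h))
  have hm0 : (0 : ℝ) < m := by exact_mod_cast hm
  have hn0 : (0 : ℝ) < n := by exact_mod_cast hn
  have h1 : (m : ℝ) + 1 ≤ n := by exact_mod_cast hlt
  have h2 := Real.one_sub_inv_le_log_of_pos (div_pos hn0 hm0)
  rw [inv_div, Real.log_div hn0.ne' hm0.ne'] at h2
  refine le_trans ?_ (le_abs_self _)
  refine le_trans ?_ h2
  have h3 : 1 / N ≤ 1 / (n : ℝ) := one_div_le_one_div_of_le hn0 hnN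
  have h4 : 1 / (n : ℝ) ≤ 1 - m / n := by
    rw [le_sub_iff_add_le, ← add_div, div_le_one hn0]
    linarith
  exact h3.trans h4

/-- **mean square** -/
theorem mean_gen {ι : Type*} (S : Finset ι) (q : ι → ℕ) (a : ι → ℂ) {N W : ℝ} (hW : 0 < W)
    (hq : ∀ i ∈ S, 1 ≤ q i ∧ (q i : ℝ) ≤ N) (τ : ℝ) :
    Integrable (fun t => PW W (t - τ) * ‖∑ i ∈ S, a i * ew (q i) t‖ ^ 2) ∧
    ∫ t, PW W (t - τ) * ‖∑ i ∈ S, a i * ew (q i) t‖ ^ 2 ≤
      ∑ i ∈ S, ∑ j ∈ S, (if q i = q j then ‖a i‖ * ‖a j‖ else 0) +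
        Real.exp (-(W / N)) * (∑ i ∈ S, ‖a i‖) ^ 2 := by
  have hPi : Integrable fun t => PW W (t - τ) := (integral_PW hW).1.comp_sub_right τ
  have hcont : Continuous fun t => ∑ i ∈ S, a i * ew (q i) t :=
    continuous_finset_sum _ fun i _ => continuous_const.mul (ew_cont _)
  have hbd : ∀ t, ‖∑ i ∈ S, a i * ew (q i) t‖ ≤ ∑ i ∈ S, ‖a i‖ := fun t => by
    refine (norm_sum_le _ _).trans (Finset.sum_le_sum fun i _ => ?_)
    rw [norm_mul, ew_norm, mul_one]
  have hint : Integrable (fun t => PW W (t - τ) * ‖∑ i ∈ S, a i * ew (q i) t‖ ^ 2) := by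
    refine hPi.mul_bdd (c := (∑ i ∈ S, ‖a i‖) ^ 2) (hcont.norm.pow 2).aestronglyMeasurable ?_
    refine Eventually.of_forall fun t => ?_
    rw [Real.norm_of_nonneg (by positivity)]
    have := hbd t
    gcongr
  refine ⟨hint, ?_⟩
  -- expansion
  set w : ι → ι → ℝ := fun i j => Real.log (q j) - Real.log (q i) with hw
  have hterm : ∀ t : ℝ, ∀ i j, a i * ew (q i) t * (starRingEnd ℂ) (a j * ew (q j) t) =
      a i * (starRingEnd ℂ) (a j) * Complex.exp (Complex.I * ((w i j * t : ℝ) : ℂ)) := by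
    intro t i j
    have e1 : (starRingEnd ℂ) (ew (q j) t) = Complex.exp (Complex.I * ((Real.log (q j) * t : ℝ) : ℂ)) := by
      unfold ew
      rw [← Complex.exp_conj, map_mul, Complex.conj_I, Complex.conj_ofReal]
      congr 1
      push_cast
      ring
    rw [map_mul, e1]
    unfold ew
    rw [show a i * Complex.exp (Complex.I * ((-Real.log (q i) * t : ℝ) : ℂ)) *
      ((starRingEnd ℂ) (a j) * Complex.exp (Complex.I * ((Real.log (q j) * t : ℝ) : ℂ))) =
      a i * (starRingEnd ℂ) (a j) * (Complex.exp (Complex.I * ((-Real.log (q i) * t : ℝ) : ℂ)) *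
        Complex.exp (Complex.I * ((Real.log (q j) * t : ℝ) : ℂ))) by ring, ← Complex.exp_add]
    congr 2
    simp only [hw]
    push_cast
    ring
  have hexp : ∀ t : ℝ, ((PW W (t - τ) * ‖∑ i ∈ S, a i * ew (q i) t‖ ^ 2 : ℝ) : ℂ) =
      ∑ i ∈ S, ∑ j ∈ S, a i * (starRingEnd ℂ) (a j) *
        ((PW W (t - τ) : ℂ) * Complex.exp (Complex.I * ((w i j * t : ℝ) : ℂ))) := by
    intro t
    have e1 : ((‖∑ i ∈ S, a i * ew (q i) t‖ ^ 2 : ℝ) : ℂ) =
        (∑ i ∈ S, a i * ew (q i) t) * (starRingEnd ℂ) (∑ i ∈ S, a i * ew (q i) t) := by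
      rw [Complex.mul_conj, Complex.normSq_eq_norm_sq]
    rw [Complex.ofReal_mul, e1, map_sum, Finset.sum_mul_sum, Finset.mul_sum]
    refine Finset.sum_congr rfl fun i _ => ?_
    rw [Finset.mul_sum]
    refine Finset.sum_congr rfl fun j _ => ?_
    rw [hterm]
    ring
  have hti : ∀ i j, Integrable fun t : ℝ => a i * (starRingEnd ℂ) (a j) *
        ((PW W (t - τ) : ℂ) * Complex.exp (Complex.I * ((w i j * t : ℝ) : ℂ))) := by
    intro i j
    refine Integrable.const_mul ?_ _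
    refine Integrable.mul_bdd (c := 1) hPi.ofReal ?_ ?_
    · apply Continuous.aestronglyMeasurable
      fun_prop
    · exact Eventually.of_forall fun t => by
        rw [mul_comm, Complex.norm_exp_ofReal_mul_I]
  have hval : ((∫ t, PW W (t - τ) * ‖∑ i ∈ S, a i * ew (q i) t‖ ^ 2 : ℝ) : ℂ) =
      ∑ i ∈ S, ∑ j ∈ S, a i * (starRingEnd ℂ) (a j) *
        ((Real.exp (-(W * |w i j|)) : ℂ) * Complex.exp (Complex.I * ((w i j * τ : ℝ) : ℂ))) := by
    rw [← integral_complex_ofReal]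
    simp_rw [hexp]
    rw [integral_finset_sum _ fun i _ => integrable_finset_sum _ fun j _ => hti i j]
    refine Finset.sum_congr rfl fun i _ => ?_
    rw [integral_finset_sum _ fun j _ => hti i j]
    refine Finset.sum_congr rfl fun j _ => ?_
    rw [integral_const_mul, integral_cexp hW]
  have hnn : 0 ≤ ∫ t, PW W (t - τ) * ‖∑ i ∈ S, a i * ew (q i) t‖ ^ 2 :=
    integral_nonneg fun t => mul_nonneg (PW_pos hW _).le (by positivity)
  have h1 : ∫ t, PW W (t - τ) * ‖∑ i ∈ S, a i * ew (q i) t‖ ^ 2 ≤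
      ∑ i ∈ S, ∑ j ∈ S, ‖a i‖ * ‖a j‖ * Real.exp (-(W * |w i j|)) := by
    calc ∫ t, PW W (t - τ) * ‖∑ i ∈ S, a i * ew (q i) t‖ ^ 2
        = ‖((∫ t, PW W (t - τ) * ‖∑ i ∈ S, a i * ew (q i) t‖ ^ 2 : ℝ) : ℂ)‖ := by
          rw [Complex.norm_real, Real.norm_of_nonneg hnn]
      _ ≤ ∑ i ∈ S, ∑ j ∈ S, ‖a i * (starRingEnd ℂ) (a j) *
        ((Real.exp (-(W * |w i j|)) : ℂ) * Complex.exp (Complex.I * ((w i j * τ : ℝ) : ℂ)))‖ := by
          rw [hval]
          exact (norm_sum_le _ _).trans (Finset.sum_le_sum fun i _ => norm_sum_le _ _)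
      _ = _ := by
          refine Finset.sum_congr rfl fun i _ => Finset.sum_congr rfl fun j _ => ?_
          rw [norm_mul, norm_mul, norm_mul, Complex.norm_conj, Complex.norm_real,
            Real.norm_of_nonneg (Real.exp_pos _).le, mul_comm Complex.I, Complex.norm_exp_ofReal_mul_I, mul_one]
  refine h1.trans ?_
  have h2 : ∀ i ∈ S, ∀ j ∈ S, ‖a i‖ * ‖a j‖ * Real.exp (-(W * |w i j|)) ≤
      (if q i = q j then ‖a i‖ * ‖a j‖ else 0) + Real.exp (-(W / N)) * (‖a i‖ * ‖a j‖) := by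
    intro i hi j hj
    have hp : 0 ≤ ‖a i‖ * ‖a j‖ := by positivity
    split_ifs with h
    · have : Real.exp (-(W * |w i j|)) ≤ 1 := Real.exp_le_one_iff.mpr (by
        have : 0 ≤ W * |w i j| := by positivity
        linarith)
      have h3 : 0 ≤ Real.exp (-(W / N)) * (‖a i‖ * ‖a j‖) := by positivity
      nlinarith
    · have h3 := log_sep (hq i hi).1 (hq j hj).1 (hq i hi).2 (hq j hj).2 h
      have h4 : Real.exp (-(W * |w i j|)) ≤ Real.exp (-(W / N)) := by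
        apply Real.exp_le_exp.mpr
        have : W * (1 / N) ≤ W * |w i j| := mul_le_mul_of_nonneg_left h3 hW.le
        rw [mul_one_div] at this
        linarith
      rw [zero_add, mul_comm (Real.exp (-(W / N)))]
      exact mul_le_mul_of_nonneg_left h4 hp
  refine (Finset.sum_le_sum fun i hi => Finset.sum_le_sum fun j hj => h2 i hi j hj).trans (le_of_eq ?_)
  simp only [Finset.sum_add_distrib, ← Finset.mul_sum]
  congr 2
  rw [pow_two, Finset.sum_mul_sum]
  refine Finset.sum_congr rfl fun i _ => ?_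
  rw [Finset.mul_sum]

end Pool.Agent.Helper53.UG
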